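import Pool.Agent.U364.PP.Tower

/-!
# From coverings by cosets of a subgroup to its index of invariance
-/

set_option autoImplicit false

open Finset
open scoped Pointwise

namespace Pool.Agent.U364.PP

variable {Γ : Type*} [AddCommGroup Γ] [DecidableEq Γ]

/-- if `A` is covered by few cosets of `H`, `|H| ≤ |A|` and `|A + T A| ≤ K |A|` then `H` is almost invariant -/
theorem index_bound (T : Γ →+ Γ) (A : Finset Γ) (hA : A.Nonempty) (H : AddSubgroup Γ) [Finite H]
    (X : Finset Γ) (hX : ∀ a ∈ A, ∃ x ∈ X, a - x ∈ H) (hHA : Nat.card H ≤ A.card) (K : ℝ)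
    (hK : ((A + A.image T).card : ℝ) ≤ K * A.card) :
    (((H.comap T).relIndex H : ℕ) : ℝ) ≤ K * (X.card : ℝ) ^ 2 := by
  classical
  have hXne : X.Nonempty := by
    obtain ⟨a, ha⟩ := hA
    obtain ⟨x, hx, -⟩ := hX a ha
    exact ⟨x, hx⟩
  -- the most popular coset
  obtain ⟨t, ht, hmax⟩ := Finset.exists_max_image X (fun x => (A.filter fun a => a - x ∈ H).card) hXne
  obtain ⟨A', hA'⟩ : ∃ A' : Finset Γ, A' = A.filter fun a => a - t ∈ H := ⟨_, rfl⟩
  have hAX : A.card ≤ X.card * A'.card := by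
    have h1 : A ⊆ X.biUnion fun x => A.filter fun a => a - x ∈ H := by
      intro a ha
      obtain ⟨x, hx, h⟩ := hX a ha
      exact mem_biUnion.2 ⟨x, hx, mem_filter.2 ⟨ha, h⟩⟩
    refine (card_le_card h1).trans (card_biUnion_le.trans ?_)
    rw [hA']
    exact Finset.sum_le_card_nsmul _ _ _ hmax
  have hA'A : A' ⊆ A := by rw [hA']; exact filter_subset _ _
  have hA't : ∀ a ∈ A', a - t ∈ H := fun a ha => by
    rw [hA'] at ha
    exact (mem_filter.1 ha).2
  have hA'0 : 0 < A'.card := by
    rcases Nat.eq_zero_or_pos A'.card with h | h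
    · rw [h, mul_zero] at hAX
      have := hA.card_pos
      omega
    · exact h
  obtain ⟨S, hS⟩ : ∃ S : Finset (Γ ⧸ H), S = A'.image fun a => (QuotientAddGroup.mk (T a) : Γ ⧸ H) :=
    ⟨_, rfl⟩
  -- many sums
  have hrep : ∀ σ : Γ ⧸ H, ∃ b : Γ, σ ∈ S → b ∈ A' ∧ (QuotientAddGroup.mk (T b) : Γ ⧸ H) = σ := by
    intro σ
    by_cases hσ : σ ∈ S
    · rw [hS] at hσ
      obtain ⟨b, hb, h⟩ := mem_image.1 hσ
      exact ⟨b, fun _ => ⟨hb, h⟩⟩
    · exact ⟨0, fun h => absurd h hσ⟩
  choose b hb using hrep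
  have hsum : S.card * A'.card ≤ (A + A.image T).card := by
    rw [← card_product]
    refine Finset.card_le_card_of_injOn (fun x : (Γ ⧸ H) × Γ => x.2 + T (b x.1)) ?_ ?_
    · rintro ⟨σ, a⟩ h
      rw [mem_coe, mem_product] at h
      exact add_mem_add (hA'A h.2) (mem_image_of_mem _ (hA'A (hb σ h.1).1))
    · rintro ⟨σ, a⟩ h ⟨σ', a'⟩ h' he
      rw [mem_coe, mem_product] at h h'
      simp only at h h' he
      have h1 : (QuotientAddGroup.mk a : Γ ⧸ H) = QuotientAddGroup.mk a' := by
        rw [QuotientAddGroup.eq]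
        have h2 := H.sub_mem (hA't a' h'.2) (hA't a h.2)
        have h3 : a' - t - (a - t) = -a + a' := by abel
        rwa [h3] at h2
      have h2 := congrArg (fun z : Γ => (QuotientAddGroup.mk z : Γ ⧸ H)) he
      simp only [QuotientAddGroup.mk_add, h1] at h2
      have h3 := add_left_cancel h2
      rw [(hb σ h.1).2, (hb σ' h'.1).2] at h3
      subst h3
      exact Prod.ext rfl (add_right_cancel he)
  -- few elements with the same class
  have hfib : A'.card ≤ Nat.card (H ⊓ H.comap T : AddSubgroup Γ) * S.card := by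
    rw [hS]
    refine Finset.card_le_mul_card_image A' _ fun σ hσ => ?_
    obtain ⟨a₀, ha₀, hσ₀⟩ := mem_image.1 hσ
    have hfin : Finite (H ⊓ H.comap T : AddSubgroup Γ) :=
      Finite.of_injective (AddSubgroup.inclusion (inf_le_left : H ⊓ H.comap T ≤ H))
        (AddSubgroup.inclusion_injective _)
    have hmem : ∀ x : {x // x ∈ A'.filter fun a => (QuotientAddGroup.mk (T a) : Γ ⧸ H) = σ},
        (x : Γ) - a₀ ∈ (H ⊓ H.comap T : AddSubgroup Γ) := by
      rintro ⟨x, hx⟩
      rw [mem_filter] at hx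
      refine ⟨?_, ?_⟩
      · have h2 := H.sub_mem (hA't x hx.1) (hA't a₀ ha₀)
        have h3 : x - t - (a₀ - t) = x - a₀ := by abel
        rwa [h3] at h2
      · have h2 := hσ₀.trans hx.2.symm
        rw [QuotientAddGroup.eq] at h2
        change T (x - a₀) ∈ H
        have h3 : T (x - a₀) = -T a₀ + T x := by rw [map_sub]; abel
        rw [h3]
        exact h2
    have h := Nat.card_le_card_of_injective
      (fun x : {x // x ∈ A'.filter fun a => (QuotientAddGroup.mk (T a) : Γ ⧸ H) = σ} =>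
        (⟨(x : Γ) - a₀, hmem x⟩ : (H ⊓ H.comap T : AddSubgroup Γ))) (by
        intro x y hxy
        have h1 : (x : Γ) - a₀ = y - a₀ :=
          congrArg (fun z : (H ⊓ H.comap T : AddSubgroup Γ) => (z : Γ)) hxy
        exact Subtype.ext (sub_left_inj.1 h1))
    rw [Nat.card_eq_fintype_card, Fintype.card_coe] at h
    exact h
  have hidx : Nat.card (H ⊓ H.comap T : AddSubgroup Γ) * (H.comap T).relIndex H = Nat.card H := by
    have h2 := AddSubgroup.relIndex_mul_relIndex (⊥ : AddSubgroup Γ) (H ⊓ H.comap T) H bot_le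
      inf_le_left
    rw [AddSubgroup.relIndex_bot_left, AddSubgroup.relIndex_bot_left,
      AddSubgroup.inf_relIndex_left] at h2
    exact h2
  have hfin : Finite (H ⊓ H.comap T : AddSubgroup Γ) :=
    Finite.of_injective (AddSubgroup.inclusion (inf_le_left : H ⊓ H.comap T ≤ H))
      (AddSubgroup.inclusion_injective _)
  have hpos : 0 < Nat.card (H ⊓ H.comap T : AddSubgroup Γ) := Nat.card_pos
  -- conclusion
  have hs : (S.card : ℝ) ≤ K * X.card := by
    have h1 : (S.card : ℝ) * A'.card ≤ K * A.card := by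
      refine le_trans ?_ hK
      exact_mod_cast hsum
    have hA0 : (0 : ℝ) < A.card := by exact_mod_cast hA.card_pos
    have hK0 : 0 ≤ K := by
      by_contra hneg
      push Not at hneg
      have : K * A.card < 0 := mul_neg_of_neg_of_pos hneg hA0
      have h3 : (0 : ℝ) ≤ ((A + A.image T).card : ℝ) := Nat.cast_nonneg _
      linarith
    have h2 : (A.card : ℝ) ≤ X.card * A'.card := by exact_mod_cast hAX
    have h3 : (S.card : ℝ) * A'.card ≤ (K * X.card) * A'.card := by
      calc (S.card : ℝ) * A'.card ≤ K * A.card := h1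
        _ ≤ K * (X.card * A'.card) := mul_le_mul_of_nonneg_left h2 hK0
        _ = _ := by ring
    exact le_of_mul_le_mul_right h3 (by exact_mod_cast hA'0)
  have h1 : Nat.card (H ⊓ H.comap T : AddSubgroup Γ) * (H.comap T).relIndex H ≤
      Nat.card (H ⊓ H.comap T : AddSubgroup Γ) * (X.card * S.card) := by
    rw [hidx]
    calc Nat.card H ≤ A.card := hHA
      _ ≤ X.card * A'.card := hAX
      _ ≤ X.card * (Nat.card (H ⊓ H.comap T : AddSubgroup Γ) * S.card) := Nat.mul_le_mul_left _ hfib
      _ = _ := by ring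
  have h2 := Nat.le_of_mul_le_mul_left h1 hpos
  have h3 : (((H.comap T).relIndex H : ℕ) : ℝ) ≤ X.card * S.card := by exact_mod_cast h2
  refine h3.trans ?_
  rw [sq, ← mul_assoc, mul_comm (X.card : ℝ)]
  exact mul_le_mul_of_nonneg_right hs (Nat.cast_nonneg _)

end Pool.Agent.U364.PP
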