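import Mathlib

/-!
# Finite subgroups which are almost invariant under an endomorphism

Let `T` be an endomorphism of an abelian group and `V` a finite subgroup. Then
`V = N + {∑ a, ∑ j < n a, c a j • T^j (v a) : 0 ≤ c a j < p a}`, with every element having only one representation,
`T N ⊆ N`, prime numbers `p a` with `∏ p a = |V + T V| / |V|`.
-/

set_option autoImplicit false

open Finset

namespace Pool.Agent.U364.PP

variable {Γ : Type*} [AddCommGroup Γ]

/-- one step of a composition series -/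
lemma prime_step (W V : AddSubgroup Γ) [Finite V] (hWV : W ≤ V) (hne : W ≠ V) :
    ∃ (q : ℕ) (x : Γ), q.Prime ∧ x ∈ V ∧ (∀ m : ℕ, (∀ x ∈ V, m • x = 0) → q ∣ m) ∧
      ∃ W' : AddSubgroup Γ, W ≤ W' ∧ W' ≤ V ∧ W ≠ W' ∧
        (∀ z ∈ W', ∃ y ∈ W, ∃ c : ℕ, c < q ∧ z = y + c • x) ∧
        Nat.card W' = Nat.card W * q := by
  classical
  obtain ⟨z, hzV, hzW⟩ : ∃ z ∈ V, z ∉ W := by
    by_contra h
    push Not at h
    exact hne (le_antisymm hWV h)
  obtain ⟨d, hd⟩ : ∃ d : ℕ, d = addOrderOf (QuotientAddGroup.mk z : Γ ⧸ W) := ⟨_, rfl⟩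
  have hmem : ∀ (y : Γ) (k : ℕ), k • (QuotientAddGroup.mk y : Γ ⧸ W) = 0 ↔ k • y ∈ W := by
    intro y k
    rw [← QuotientAddGroup.mk_nsmul]
    exact QuotientAddGroup.eq_zero_iff _
  have hcard : Nat.card V • z = 0 := by
    have h1 : Nat.card V • (⟨z, hzV⟩ : V) = 0 := card_nsmul_eq_zero'
    exact congrArg (fun t : V => (t : Γ)) h1
  have hd0 : d ≠ 0 := by
    rw [hd]
    intro h0
    have h1 := addOrderOf_eq_zero_iff'.1 h0 (Nat.card V) Nat.card_pos
    exact h1 ((hmem z _).2 (by rw [hcard]; exact W.zero_mem))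
  have hd1 : d ≠ 1 := by
    rw [hd, Ne, AddMonoid.addOrderOf_eq_one_iff]
    intro h
    exact hzW ((QuotientAddGroup.eq_zero_iff z).1 h)
  obtain ⟨q, hq⟩ : ∃ q : ℕ, q = d.minFac := ⟨_, rfl⟩
  have hqp : q.Prime := by rw [hq]; exact Nat.minFac_prime hd1
  obtain ⟨e, he⟩ : q ∣ d := by rw [hq]; exact Nat.minFac_dvd d
  have he0 : e ≠ 0 := by
    rintro rfl
    exact hd0 (by rw [he]; ring)
  have hkey : ∀ k : ℕ, k • (e • z) ∈ W → q ∣ k := by
    intro k hk
    rw [← mul_smul, ← hmem z (k * e), ← addOrderOf_dvd_iff_nsmul_eq_zero, ← hd, he] at hk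
    exact Nat.dvd_of_mul_dvd_mul_right (Nat.pos_of_ne_zero he0) hk
  have hqe : q • (e • z) ∈ W := by
    rw [← mul_smul, ← hmem z, ← he, hd]
    exact addOrderOf_nsmul_eq_zero _
  have hxV : e • z ∈ V := V.nsmul_mem hzV e
  refine ⟨q, e • z, hqp, hxV, fun m hm => hkey m (by rw [hm _ hxV]; exact W.zero_mem),
    W ⊔ AddSubgroup.zmultiples (e • z), le_sup_left,
    sup_le hWV (by rw [AddSubgroup.zmultiples_le]; exact hxV), ?_, ?_, ?_⟩
  · intro h
    have h1 : e • z ∈ W := by
      rw [h]
      exact (le_sup_right : AddSubgroup.zmultiples (e • z) ≤ _) (AddSubgroup.mem_zmultiples _)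
    have h2 := hkey 1 (by rw [one_smul]; exact h1)
    exact hqp.one_lt.ne' (Nat.dvd_one.1 h2)
  · intro u hu
    obtain ⟨y, hy, w, hw, rfl⟩ := AddSubgroup.mem_sup.1 hu
    obtain ⟨k, rfl⟩ := AddSubgroup.mem_zmultiples_iff.1 hw
    have hq0 : (0 : ℤ) < q := by exact_mod_cast hqp.pos
    refine ⟨y + (k / q) • (q • (e • z)), W.add_mem hy (W.zsmul_mem hqe _), (k % q).toNat, ?_, ?_⟩
    · have h1 := Int.emod_lt_of_pos k hq0
      have h2 := Int.emod_nonneg k hq0.ne'
      omega
    · have h2 := Int.emod_nonneg k hq0.ne'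
      rw [add_assoc]
      congr 1
      have h3 : (((k % q).toNat : ℕ) : ℤ) = k % q := Int.toNat_of_nonneg h2
      rw [← natCast_zsmul (e • z) (k % q).toNat, h3, ← natCast_zsmul (e • z) q, ← mul_smul, ← add_smul]
      congr 1
      have := Int.mul_ediv_add_emod k q
      linarith
  · -- the number of elements
    obtain ⟨W', hW'⟩ : ∃ W' : AddSubgroup Γ, W' = W ⊔ AddSubgroup.zmultiples (e • z) := ⟨_, rfl⟩
    rw [← hW']
    have hfW : Finite W := Finite.of_injective (AddSubgroup.inclusion hWV)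
      (AddSubgroup.inclusion_injective hWV)
    have hmemW' : ∀ (y : W) (c : Fin q), (y : Γ) + (c : ℕ) • (e • z) ∈ W' := by
      intro y c
      rw [hW']
      exact AddSubgroup.add_mem _ ((le_sup_left : W ≤ _) y.2)
        (AddSubgroup.nsmul_mem _ ((le_sup_right : AddSubgroup.zmultiples (e • z) ≤ _)
          (AddSubgroup.mem_zmultiples _)) _)
    have hbij : Function.Bijective (fun yc : W × Fin q =>
        (⟨(yc.1 : Γ) + (yc.2 : ℕ) • (e • z), hmemW' yc.1 yc.2⟩ : W')) := by
      constructor
      · rintro ⟨y, c⟩ ⟨y', c'⟩ h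
        have h1 : (y : Γ) + (c : ℕ) • (e • z) = (y' : Γ) + (c' : ℕ) • (e • z) :=
          congrArg (fun t : W' => (t : Γ)) h
        have h2 : c = c' := by
          have hdiv : ∀ (y y' : W) (c c' : Fin q), (c : ℕ) ≤ c' →
              (y : Γ) + (c : ℕ) • (e • z) = (y' : Γ) + (c' : ℕ) • (e • z) → c = c' := by
            intro y y' c c' hcc h1
            obtain ⟨k, hk⟩ := Nat.exists_eq_add_of_le hcc
            have h3 : (k : ℕ) • (e • z) ∈ W := by
              rw [hk, add_smul] at h1
              have h4 : (k : ℕ) • (e • z) = y - y' := by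
                have : (y : Γ) = y' + k • (e • z) := by
                  have h5 : (y : Γ) + (c : ℕ) • (e • z) = (y' + k • (e • z)) + (c : ℕ) • (e • z) := by
                    rw [h1]; abel
                  exact add_right_cancel h5
                rw [this]; abel
              rw [h4]
              exact W.sub_mem y.2 y'.2
            have h5 := hkey k h3
            have h6 := c'.2
            have h7 : k = 0 := Nat.eq_zero_of_dvd_of_lt h5 (by omega)
            exact Fin.ext (by omega)
          rcases le_total (c : ℕ) c' with hcc | hcc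
          · exact hdiv y y' c c' hcc h1
          · exact (hdiv y' y c' c hcc h1.symm).symm
        subst h2
        have h3 : (y : Γ) = y' := add_right_cancel h1
        exact Prod.ext (Subtype.ext h3) rfl
      · rintro ⟨u, hu⟩
        have hu' := hu
        rw [hW'] at hu'
        obtain ⟨y, hy, w, hw, rfl⟩ := AddSubgroup.mem_sup.1 hu'
        obtain ⟨k, rfl⟩ := AddSubgroup.mem_zmultiples_iff.1 hw
        have hq0 : (0 : ℤ) < q := by exact_mod_cast hqp.pos
        have h1 := Int.emod_lt_of_pos k hq0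
        have h2 := Int.emod_nonneg k hq0.ne'
        refine ⟨(⟨y + (k / q) • (q • (e • z)), W.add_mem hy (W.zsmul_mem hqe _)⟩,
          ⟨(k % q).toNat, by omega⟩), ?_⟩
        refine Subtype.ext ?_
        change y + (k / (q : ℤ)) • (q • (e • z)) + (k % (q : ℤ)).toNat • (e • z) = y + k • (e • z)
        rw [add_assoc]
        congr 1
        have h3 : (((k % q).toNat : ℕ) : ℤ) = k % q := Int.toNat_of_nonneg h2
        rw [← natCast_zsmul (e • z) (k % q).toNat, h3, ← natCast_zsmul (e • z) q, ← mul_smul, ← add_smul]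
        congr 1
        have := Int.mul_ediv_add_emod k q
        linarith
    have h := Nat.card_congr (Equiv.ofBijective _ hbij)
    rw [← h, Nat.card_prod, Nat.card_fin]

/-- a composition series between two finite subgroups -/
lemma prime_chain (V : AddSubgroup Γ) [Finite V] : ∀ (k : ℕ) (W : AddSubgroup Γ), W ≤ V →
    Nat.card V ≤ Nat.card W + k →
    ∃ (r : ℕ) (q : Fin r → ℕ) (w : Fin r → Γ), (∀ b, (q b).Prime) ∧ (∀ b, w b ∈ V) ∧
      (∀ m : ℕ, (∀ x ∈ V, m • x = 0) → ∀ b, q b ∣ m) ∧
      (∀ x ∈ V, ∃ y ∈ W, ∃ c : Fin r → ℕ, (∀ b, c b < q b) ∧ x = y + ∑ b, c b • w b) ∧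
      Nat.card V = Nat.card W * ∏ b, q b := by
  intro k
  induction k with
  | zero =>
    intro W hW hcard
    have hWV : W = V := AddSubgroup.eq_of_le_of_card_ge hW (by omega)
    subst hWV
    exact ⟨0, Fin.elim0, Fin.elim0, fun b => b.elim0, fun b => b.elim0, fun _ _ b => b.elim0,
      fun x hx => ⟨x, hx, Fin.elim0, fun b => b.elim0, by simp⟩, by simp⟩
  | succ k ih =>
    intro W hW hcard
    by_cases hne : W = V
    · subst hne
      exact ⟨0, Fin.elim0, Fin.elim0, fun b => b.elim0, fun b => b.elim0, fun _ _ b => b.elim0,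
        fun x hx => ⟨x, hx, Fin.elim0, fun b => b.elim0, by simp⟩, by simp⟩
    obtain ⟨q, x, hq, hxV, hqm, W', hWW', hW'V, -, hrep, hcW'⟩ := prime_step W V hW hne
    have hfW : Finite W := Finite.of_injective (AddSubgroup.inclusion hW)
      (AddSubgroup.inclusion_injective hW)
    have hcW : 0 < Nat.card W := Nat.card_pos
    obtain ⟨r, q', w, h1, h2, h3, h4, h5⟩ := ih W' hW'V (by
      rw [hcW']
      have := hq.two_le
      nlinarith)
    refine ⟨r + 1, Fin.cons q q', Fin.cons x w, fun b => ?_, fun b => ?_, fun m hm b => ?_,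
      fun z hz => ?_, ?_⟩
    · refine Fin.cases ?_ (fun b => ?_) b
      · simpa using hq
      · simpa using h1 b
    · refine Fin.cases ?_ (fun b => ?_) b
      · simpa using hxV
      · simpa using h2 b
    · refine Fin.cases ?_ (fun b => ?_) b
      · simpa using hqm m hm
      · simpa using h3 m hm b
    · obtain ⟨y, hy, c, hc, rfl⟩ := h4 z hz
      obtain ⟨y', hy', c', hc', rfl⟩ := hrep y hy
      refine ⟨y', hy', Fin.cons c' c, fun b => ?_, ?_⟩
      · refine Fin.cases ?_ (fun b => ?_) b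
        · simpa using hc'
        · simpa using hc b
      · rw [Fin.sum_univ_succ]
        simp only [Fin.cons_zero, Fin.cons_succ]
        abel
    · rw [h5, hcW', Fin.prod_univ_succ]
      simp only [Fin.cons_zero, Fin.cons_succ]
      ring

lemma iter_succ (T : Γ →+ Γ) (j : ℕ) (x : Γ) : T^[j + 1] x = T (T^[j] x) :=
  Function.iterate_succ_apply' T j x

/-- **Finite subgroups which are almost invariant under an endomorphism.** -/
theorem tower (T : Γ →+ Γ) : ∀ (k : ℕ) (V : AddSubgroup Γ), Finite V → Nat.card V ≤ k →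
    ∃ (N : AddSubgroup Γ) (r : ℕ) (p n : Fin r → ℕ) (v : Fin r → Γ),
      N ≤ V ∧ (∀ x ∈ N, T x ∈ N) ∧ (∀ a, (p a).Prime) ∧ (∀ a, 1 ≤ n a) ∧
      (∀ a, ∀ j < n a, T^[j] (v a) ∈ V) ∧
      (∀ x ∈ V, ∃ h ∈ N, ∃ c : Fin r → ℕ → ℕ, (∀ a j, c a j < p a) ∧
        x = h + ∑ a, ∑ j ∈ range (n a), c a j • T^[j] (v a)) ∧
      Nat.card V = Nat.card N * ∏ a, p a ^ n a ∧
      (∀ x ∈ V, ∃ y ∈ V, ∃ c : Fin r → ℕ, (∀ a, c a < p a) ∧
        T x = y + ∑ a, c a • T^[n a] (v a)) ∧
      (V.comap T).relIndex V = ∏ a, p a ∧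
      (∀ m : ℕ, (∀ x ∈ V, m • x = 0) → ∀ a, p a ∣ m) := by
  intro k
  induction k with
  | zero =>
    intro V hV hk
    have : 0 < Nat.card V := Nat.card_pos
    omega
  | succ k ih =>
    intro V hV hk
    by_cases hT : ∀ x ∈ V, T x ∈ V
    · refine ⟨V, 0, Fin.elim0, Fin.elim0, Fin.elim0, le_rfl, hT, fun b => b.elim0,
        fun b => b.elim0, fun b => b.elim0,
        fun x hx => ⟨x, hx, fun b => b.elim0, fun b => b.elim0, by simp⟩, by simp,
        fun x hx => ⟨T x, hT x hx, fun b => b.elim0, fun b => b.elim0, by simp⟩, ?_,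
        fun _ _ b => b.elim0⟩
      rw [Finset.univ_eq_empty, Finset.prod_empty, AddSubgroup.relIndex_eq_one]
      exact fun x hx => hT x hx
    -- the elements which stay in `V`
    obtain ⟨V₁, hV₁⟩ : ∃ V₁ : AddSubgroup Γ, V₁ = V ⊓ V.comap T := ⟨_, rfl⟩
    have hV₁V : V₁ ≤ V := by rw [hV₁]; exact inf_le_left
    have hTV₁ : ∀ x ∈ V₁, T x ∈ V := by
      intro x hx
      rw [hV₁] at hx
      exact hx.2
    have hne : V₁ ≠ V := by
      intro h
      apply hT
      intro x hx
      exact hTV₁ x (by rw [h]; exact hx)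
    have hfV₁ : Finite V₁ := Finite.of_injective (AddSubgroup.inclusion hV₁V)
      (AddSubgroup.inclusion_injective hV₁V)
    have hlt : Nat.card V₁ < Nat.card V := by
      by_contra hcon
      exact hne (AddSubgroup.eq_of_le_of_card_ge hV₁V (by omega))
    obtain ⟨N, r, p, n, v, hN, hTN, hp, hn, hv, hrep, hcard, hTrep, hrel, hdvd⟩ :=
      ih V₁ hfV₁ (by omega)
    obtain ⟨W, hW⟩ : ∃ W : AddSubgroup Γ, W = V₁ ⊔ V₁.map T := ⟨_, rfl⟩
    have hWV : W ≤ V := by
      rw [hW]
      refine sup_le hV₁V ?_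
      rintro _ ⟨x, hx, rfl⟩
      exact hTV₁ x hx
    have hWrep : ∀ x ∈ W, ∃ y ∈ V₁, ∃ c : Fin r → ℕ, (∀ a, c a < p a) ∧
        x = y + ∑ a, c a • T^[n a] (v a) := by
      intro x hx
      rw [hW] at hx
      obtain ⟨y, hy, w, hw, rfl⟩ := AddSubgroup.mem_sup.1 hx
      obtain ⟨u, hu, rfl⟩ := hw
      obtain ⟨y', hy', c, hc, h⟩ := hTrep u hu
      exact ⟨y + y', V₁.add_mem hy hy', c, hc, by rw [h]; abel⟩
    have hcardW : Nat.card W = Nat.card V₁ * ∏ a, p a := by
      have h1 : V₁.relIndex W = ∏ a, p a := by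
        rw [hW, AddSubgroup.relIndex_sup_left, ← AddSubgroup.relIndex_comap, hrel]
      have h2 := AddSubgroup.relIndex_mul_relIndex (⊥ : AddSubgroup Γ) V₁ W bot_le
        (by rw [hW]; exact le_sup_left)
      rw [AddSubgroup.relIndex_bot_left, AddSubgroup.relIndex_bot_left, h1] at h2
      exact h2.symm
    obtain ⟨s, q, w, hq, hw, hqm, hwrep, hcV⟩ := prime_chain V (Nat.card V) W hWV (by omega)
    have hfN : 0 < Nat.card V₁ := Nat.card_pos
    refine ⟨N, r + s, Fin.append p q, Fin.append (fun a => n a + 1) (fun _ => 1), Fin.append v w,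
      hN.trans hV₁V, hTN, fun a => ?_, fun a => ?_, fun a => ?_, fun x hx => ?_, ?_, fun x hx => ?_,
      ?_, fun m hm a => ?_⟩
    · refine Fin.addCases (fun a => ?_) (fun b => ?_) a
      · simpa using hp a
      · simpa using hq b
    · refine Fin.addCases (fun a => ?_) (fun b => ?_) a
      · simp
      · simp
    · refine Fin.addCases (fun a => ?_) (fun b => ?_) a
      · intro j hj
        rw [Fin.append_left] at hj ⊢
        rcases Nat.lt_succ_iff_lt_or_eq.1 hj with h | h
        · exact hV₁V (hv a j h)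
        · have h1 := hn a
          obtain ⟨i, hi⟩ : ∃ i, n a = i + 1 := ⟨n a - 1, by omega⟩
          rw [h, hi, iter_succ]
          exact hTV₁ _ (hv a i (by omega))
      · intro j hj
        rw [Fin.append_right] at hj ⊢
        have : j = 0 := by omega
        subst this
        exact hw b
    · obtain ⟨y, hy, c, hc, rfl⟩ := hwrep x hx
      obtain ⟨y', hy', c', hc', rfl⟩ := hWrep y hy
      obtain ⟨h, hh, c'', hc'', rfl⟩ := hrep y' hy'
      refine ⟨h, hh, fun a j => Fin.append (fun a => if j < n a then c'' a j else c' a)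
        (fun b => c b) a, fun a j => ?_, ?_⟩
      · refine Fin.addCases (fun a => ?_) (fun b => ?_) a
        · simp only [Fin.append_left]
          split_ifs
          · exact hc'' a j
          · exact hc' a
        · simp only [Fin.append_right]
          exact hc b
      · rw [Fin.sum_univ_add]
        simp only [Fin.append_left, Fin.append_right, Finset.sum_range_succ, Finset.range_zero,
          Finset.sum_empty, zero_add, Function.iterate_zero, id, lt_irrefl, if_false,
          Finset.sum_add_distrib]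
        have e : ∀ a, ∑ j ∈ range (n a), (if j < n a then c'' a j else c' a) • T^[j] (v a) =
            ∑ j ∈ range (n a), c'' a j • T^[j] (v a) := fun a =>
          Finset.sum_congr rfl fun j hj => by rw [if_pos (Finset.mem_range.1 hj)]
        simp only [e]
        abel
    · rw [hcV, hcardW, hcard, Fin.prod_univ_add]
      simp only [Fin.append_left, Fin.append_right, pow_succ, pow_zero, one_mul,
        Finset.prod_mul_distrib]
      ring
    · obtain ⟨y, hy, c, hc, rfl⟩ := hwrep x hx
      obtain ⟨y', hy', c', hc', rfl⟩ := hWrep y hy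
      refine ⟨T y', hTV₁ y' hy', Fin.append c' c, fun a => ?_, ?_⟩
      · refine Fin.addCases (fun a => ?_) (fun b => ?_) a
        · simpa using hc' a
        · simpa using hc b
      · rw [Fin.sum_univ_add]
        simp only [Fin.append_left, Fin.append_right, map_add, map_sum, map_nsmul, iter_succ,
          Function.iterate_zero, id]
        abel
    · have h1 : (V.comap T).relIndex V = V₁.relIndex V := by
        rw [hV₁, inf_comm, AddSubgroup.inf_relIndex_right]
      have h2 := AddSubgroup.relIndex_mul_relIndex (⊥ : AddSubgroup Γ) V₁ V bot_le hV₁V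
      rw [AddSubgroup.relIndex_bot_left, AddSubgroup.relIndex_bot_left, hcV, hcardW, mul_assoc] at h2
      rw [h1, Nat.eq_of_mul_eq_mul_left hfN h2, Fin.prod_univ_add]
      simp only [Fin.append_left, Fin.append_right]
    · refine Fin.addCases (fun a => ?_) (fun b => ?_) a
      · simpa using hdvd m (fun x hx => hm x (hV₁V hx)) a
      · simpa using hqm m hm b

end Pool.Agent.U364.PP
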